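import Mathlib
import Pool.Agent.H31.TraceObs
import Pool.Agent.H31.TraceAdm
import Pool.Agent.H31.TraceDim

set_option autoImplicit false
open Filter Topology

namespace Pool.Agent.Results.MP_f5ee21_nt.MultiplicityFalse

/-- The matrix `(b 1; 1 0)` attached to a letter `b`. -/
def letterMatrix (b : ℕ) : Matrix (Fin 2) (Fin 2) ℤ := !![(b : ℤ), 1; 1, 0]

/-- The semigroup of products of positive even length of the matrices `(a 1; 1 0)`, `a ∈ A`. -/
def Gam (A : Finset ℕ) : Set (Matrix (Fin 2) (Fin 2) ℤ) :=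
  {M | ∃ l : List ℕ, l ≠ [] ∧ Even l.length ∧ (∀ b ∈ l, b ∈ A) ∧ (l.map letterMatrix).prod = M}

/-- `t` is admissible: it is the trace of an element of the semigroup modulo every `q ≥ 1`. -/
def Admissible (A : Finset ℕ) (t : ℤ) : Prop :=
  ∀ q : ℤ, 1 ≤ q → ∃ M ∈ Gam A, M.trace ≡ t [ZMOD q]

/-- The number of elements of the semigroup of trace `t`. -/
noncomputable def mult (A : Finset ℕ) (t : ℤ) : ℕ := {M | M ∈ Gam A ∧ M.trace = t}.ncard

/-- The real numbers whose continued fraction has all partial quotients in `A`: limits of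
`p_n / q_n`, where `p_n, q_n` is the first column of `(a_0 1; 1 0) ... (a_n 1; 1 0)`. -/
def cantor (A : Finset ℕ) : Set ℝ :=
  {x : ℝ | ∃ a : ℕ → ℕ, (∀ j, a j ∈ A) ∧
    Tendsto (fun n : ℕ =>
      ((List.map (fun j : ℕ => (!![(a j : ℝ), 1; 1, 0] : Matrix (Fin 2) (Fin 2) ℝ))
          (List.range (n + 1))).prod 0 0) /
      ((List.map (fun j : ℕ => (!![(a j : ℝ), 1; 1, 0] : Matrix (Fin 2) (Fin 2) ℝ))
          (List.range (n + 1))).prod 1 0)) atTop (𝓝 x)}

theorem result :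
    ¬ (∀ A : Finset ℕ, (∀ a ∈ A, 1 ≤ a) → 2 ≤ A.card → (1 / 2 : ENNReal) < dimH (cantor A) →
      ∀ ε : ℝ, 0 < ε → ∃ N₀ : ℕ, ∀ N : ℕ, N₀ ≤ N → ∀ t : ℤ, (N : ℤ) ≤ t → t < 2 * (N : ℤ) →
        Admissible A t →
        (N : ℝ) ^ (2 * (dimH (cantor A)).toReal - 1 - ε) < (mult A t : ℝ)) := by
  intro H
  obtain ⟨m, hm2, hdim⟩ := H31.TraceDim.exists_dim
  let A : Finset ℕ := (Finset.range m).image (fun j => 4 + 12 * j)
  have hmem : ∀ j < m, 4 + 12 * j ∈ A := fun j hj =>
    Finset.mem_image.mpr ⟨j, Finset.mem_range.mpr hj, rfl⟩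
  have hA12 : ∀ b ∈ A, b % 12 = 4 := by
    intro b hb
    obtain ⟨j, _, rfl⟩ := Finset.mem_image.mp hb
    omega
  have h4 : 4 ∈ A := by simpa using hmem 0 (by omega)
  have h16 : 16 ∈ A := by simpa using hmem 1 (by omega)
  have hcard : 2 ≤ A.card := by
    have : ({4, 16} : Finset ℕ) ⊆ A := by
      intro b hb
      simp at hb
      rcases hb with rfl | rfl
      · exact h4
      · exact h16
    calc 2 = ({4, 16} : Finset ℕ).card := by decide
      _ ≤ A.card := Finset.card_le_card this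
  obtain ⟨N₀, hN⟩ := H A (fun a ha => by have := hA12 a ha; omega) hcard (hdim A hmem) 1 one_pos
  -- a large trace
  set j := N₀ + 1 with hjdef
  have h1 : N₀ + 1 < 25 ^ j := Nat.lt_pow_self (by norm_num)
  set N : ℕ := 36 * 25 ^ j - 2 with hNdef
  have hN2 : N + 2 = 36 * 25 ^ j := by omega
  have hNt : (N : ℤ) = 36 * 25 ^ j - 2 := by
    have : (N : ℤ) + 2 = 36 * 25 ^ j := by exact_mod_cast hN2
    linarith
  have hadm : Admissible A (N : ℤ) := by
    intro q hq
    obtain ⟨l, hl, he, hlA, htr⟩ := H31.TraceAdm.admissible A h4 h16 j q hq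
    refine ⟨(l.map letterMatrix).prod, ⟨l, hl, he, hlA, rfl⟩, ?_⟩
    rw [hNt]
    exact htr
  have hempty : {M | M ∈ Gam A ∧ M.trace = (N : ℤ)} = ∅ := by
    rw [Set.eq_empty_iff_forall_notMem]
    rintro M ⟨⟨l, hl, he, hlA, rfl⟩, htr⟩
    rw [hNt] at htr
    exact H31.TraceObs.no_trace l hl he (fun b hb => hA12 b (hlA b hb)) j (by omega) htr
  have hlt := hN N (by omega) (N : ℤ) le_rfl (by omega) hadm
  have hzero : mult A (N : ℤ) = 0 := by
    unfold mult
    rw [hempty, Set.ncard_empty]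
  rw [hzero] at hlt
  have : (0 : ℝ) ≤ (N : ℝ) ^ (2 * (dimH (cantor A)).toReal - 1 - 1) := by positivity
  norm_num at hlt
  linarith

end Pool.Agent.Results.MP_f5ee21_nt.MultiplicityFalse
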